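import Mathlib
import Pool.Agent.Work.MP_bada7b_pr.Basic

/-!
# `1 / c_MLS ≤ C ρ_ent` fails for reversible chains

We exhibit, for every `C_ent > 0` and every `C`, a three-state irreducible reversible chain with
`1 / c_MLS > C ρ_ent` and `1 / c_MLS > C τ_ent`.

The chain: states `0, 1, 2`, stationary law `(d, d, 1 - 2 d)`, `P(0,0) = P(0,1) = P(1,0) = P(1,2) = 1/2`,
`P(2,1) = q := d / (2 (1 - 2 d))`, `P(2,2) = 1 - q`.  With `L = log (1/d)` the test function
`f = (L, L - log L, 0)` shows `c_MLS ≤ (log L + 1) / L`, while both `ρ_ent` and `τ_ent`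
are `O(log L)`.
-/

open scoped Matrix BigOperators
open Filter Pool.Agent.Work.MP_bada7b_pr

namespace Pool.Agent.Results.MP_bada7b_pr.Disproof

section Definitions

variable {Ω : Type} [Fintype Ω] [DecidableEq Ω]

/-- `P` is an irreducible transition matrix on the finite set `Ω`, reversible with respect to the
probability vector `π` (which is then its stationary distribution). -/
structure IsReversibleChain (P : Matrix Ω Ω ℝ) (π : Ω → ℝ) : Prop where
  nonneg : ∀ x y, 0 ≤ P x y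
  row_sum : ∀ x, ∑ y, P x y = 1
  irreducible : ∀ x y, ∃ n : ℕ, 0 < (P ^ n) x y
  pi_nonneg : ∀ x, 0 ≤ π x
  pi_sum : ∑ x, π x = 1
  reversible : ∀ x y, π x * P x y = π y * P y x

/-- The heat kernel `H_t = exp(-t (I - P))`; the law at time `t` from `x` is the row `H_t(x, ·)`. -/
noncomputable def heat (P : Matrix Ω Ω ℝ) (t : ℝ) : Matrix Ω Ω ℝ :=
  NormedSpace.exp ((-t) • (1 - P))

/-- The Dirichlet form `E(f, g) = ⟨(I - P) f, g⟩_π = ∑ x, π(x) ((I - P) f)(x) g(x)`. -/
noncomputable def dirichlet (P : Matrix Ω Ω ℝ) (π : Ω → ℝ) (f g : Ω → ℝ) : ℝ :=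
  ∑ x, π x * (((1 - P) *ᵥ f) x * g x)

/-- `Ent_π(g) = E_π[g log g] - E_π[g] log E_π[g]`. -/
noncomputable def ent (π : Ω → ℝ) (g : Ω → ℝ) : ℝ :=
  ∑ x, π x * (g x * Real.log (g x)) - (∑ x, π x * g x) * Real.log (∑ x, π x * g x)

/-- The modified log-Sobolev constant: the infimum of `E(e^f, f) / Ent_π(e^f)` over
non-constant `f : Ω → ℝ`. -/
noncomputable def cMLS (P : Matrix Ω Ω ℝ) (π : Ω → ℝ) : ℝ :=
  sInf {r : ℝ | ∃ f : Ω → ℝ, (∃ x y, f x ≠ f y) ∧
    r = dirichlet P π (fun x => Real.exp (f x)) f / ent π (fun x => Real.exp (f x))}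

/-- Relative entropy `D(μ ‖ π) = ∑ x, μ(x) log (μ(x) / π(x))`. -/
noncomputable def relEnt (μ π : Ω → ℝ) : ℝ := ∑ x, μ x * Real.log (μ x / π x)

/-- The times `t ≥ 0` with `D(Pr_x^t ‖ π) ≤ 1/2`. -/
def tauSet (P : Matrix Ω Ω ℝ) (π : Ω → ℝ) (x : Ω) : Set ℝ :=
  {t : ℝ | 0 ≤ t ∧ relEnt (heat P t x) π ≤ 1 / 2}

/-- The entropy mixing time `τ_ent = max_x inf {t : D(Pr_x^t ‖ π) ≤ 1/2}`. -/
noncomputable def tauEnt (P : Matrix Ω Ω ℝ) (π : Ω → ℝ) : ℝ := ⨆ x, sInf (tauSet P π x)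

/-- The restriction of a matrix to `A × A` (zero elsewhere). -/
def restrict (M : Matrix Ω Ω ℝ) (A : Finset Ω) : Matrix Ω Ω ℝ :=
  Matrix.of fun x y => if x ∈ A ∧ y ∈ A then M x y else 0

/-- `Pr_x[T_{Aᶜ} > t]`, the probability that the continuous-time chain started at `x` has not left
`A` by time `t`.  The chain killed on leaving `A` has transition semigroup
`exp(-t (I - P)_A)`, where `(I - P)_A` is the restriction of `I - P` to `A × A`, so this is
`∑ y ∈ A, exp(-t (I - P)_A)(x, y)`; it equals `0` when `x ∉ A`. -/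
noncomputable def stayProb (P : Matrix Ω Ω ℝ) (A : Finset Ω) (t : ℝ) (x : Ω) : ℝ :=
  ∑ y ∈ A, NormedSpace.exp ((-t) • restrict (1 - P) A) x y

/-- `A` is connected: `Pr_a[T_b < T_{Aᶜ}] > 0` for all `a, b ∈ A`, i.e. `P` restricted to `A`
leads from `a` to `b` with positive probability in some number of steps. -/
def IsConn (P : Matrix Ω Ω ℝ) (A : Finset Ω) : Prop :=
  ∀ a ∈ A, ∀ b ∈ A, ∃ n : ℕ, 0 < ((restrict P A) ^ n) a b

/-- The times `t ≥ 0` with `Pr_x[T_{Aᶜ} > t] ≤ min (C_ent / |log π(A)|) (99/100)` for all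
connected `A` with `π(A) ≤ 1/2`. -/
def rhoSet (P : Matrix Ω Ω ℝ) (π : Ω → ℝ) (Cent : ℝ) (x : Ω) : Set ℝ :=
  {t : ℝ | 0 ≤ t ∧ ∀ A : Finset Ω, IsConn P A → ∑ y ∈ A, π y ≤ 1 / 2 →
    stayProb P A t x ≤ min (Cent / |Real.log (∑ y ∈ A, π y)|) (99 / 100)}

/-- The entropy hitting-time parameter `ρ_ent = max_x ρ_{ent,x}`. -/
noncomputable def rhoEnt (P : Matrix Ω Ω ℝ) (π : Ω → ℝ) (Cent : ℝ) : ℝ :=
  ⨆ x, sInf (rhoSet P π Cent x)

end Definitions

section General

variable {Ω : Type} [Fintype Ω] [DecidableEq Ω]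

theorem exp_neg_smul_one_sub (N : Matrix Ω Ω ℝ) (t : ℝ) :
    NormedSpace.exp ((-t) • (1 - N)) = Real.exp (-t) • NormedSpace.exp (t • N) := by
  have h1 : (-t) • (1 - N) = (-t) • (1 : Matrix Ω Ω ℝ) + t • N := by
    rw [smul_sub, neg_smul, neg_smul]; abel
  have h2 : NormedSpace.exp ((-t) • (1 : Matrix Ω Ω ℝ)) = Real.exp (-t) • (1 : Matrix Ω Ω ℝ) := by
    have h3 : (-t) • (1 : Matrix Ω Ω ℝ) = Matrix.diagonal (fun _ => -t) := by
      rw [← Matrix.diagonal_one, ← Matrix.diagonal_smul]; congr 1; funext; simp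
    rw [h3, Matrix.exp_diagonal, ← Matrix.diagonal_one, ← Matrix.diagonal_smul]
    congr 1
    funext i
    rw [Pi.coe_exp]
    simp [Real.exp_eq_exp_ℝ]
  rw [h1, Matrix.exp_add_of_commute _ _ ((Commute.one_left _).smul_left _), h2,
    Matrix.smul_mul, one_mul]

theorem exp_entry_nonneg (M : Matrix Ω Ω ℝ) (hM : ∀ x y, 0 ≤ M x y) (t : ℝ) (ht : 0 ≤ t)
    (x y : Ω) : 0 ≤ NormedSpace.exp (t • M) x y := by
  have h := exp_mulVec_le M hM 0 le_rfl (fun z => - (Pi.single y (1 : ℝ) : Ω → ℝ) z)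
    (fun z => by
      have : (fun z => - (Pi.single y (1 : ℝ) : Ω → ℝ) z) = - (Pi.single y (1 : ℝ)) := rfl
      rw [this, Matrix.mulVec_neg, Matrix.mulVec_single_one]
      simp [hM z y]) t ht x
  have h2 : (fun z => - (Pi.single y (1 : ℝ) : Ω → ℝ) z) = - (Pi.single y (1 : ℝ)) := rfl
  rw [h2, Matrix.mulVec_neg, Matrix.mulVec_single_one] at h
  simp only [zero_mul, Real.exp_zero, one_mul, Pi.neg_apply, Matrix.col_apply] at h
  have h3 : (0 : ℝ) ≤ (Pi.single y (1 : ℝ) : Ω → ℝ) x := by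
    by_cases hxy : x = y
    · subst hxy; simp
    · simp [hxy]
  linarith

/-- If `P` has unit row sums, so does `exp(t P)`, up to the factor `e^t`. -/
theorem exp_mulVec_one (P : Matrix Ω Ω ℝ) (hP : ∀ x y, 0 ≤ P x y) (hsum : ∀ x, ∑ y, P x y = 1)
    (t : ℝ) (ht : 0 ≤ t) (x : Ω) :
    (NormedSpace.exp (t • P) *ᵥ (fun _ => (1 : ℝ))) x = Real.exp t := by
  have h1 := exp_mulVec_le P hP 1 zero_le_one (fun _ => (1 : ℝ))
    (fun x => by simp [Matrix.mulVec, dotProduct, hsum x]) t ht x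
  have h2 := exp_mulVec_le P hP 1 zero_le_one (fun _ => (-1 : ℝ))
    (fun x => by simp [Matrix.mulVec, dotProduct, hsum x]) t ht x
  have h3 : (fun _ : Ω => (-1 : ℝ)) = - (fun _ => (1 : ℝ)) := by funext; simp
  rw [h3, Matrix.mulVec_neg] at h2
  simp only [one_mul, Pi.neg_apply, mul_one, mul_neg] at h1 h2
  linarith

end General

section Example

/-- the rate `q = d / (2 (1 - 2 d))` -/
noncomputable def qq (d : ℝ) : ℝ := d / (2 * (1 - 2 * d))

/-- the transition matrix of the three-state chain -/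
noncomputable def PP (d : ℝ) : Matrix (Fin 3) (Fin 3) ℝ :=
  !![1 / 2, 1 / 2, 0; 1 / 2, 0, 1 / 2; 0, qq d, 1 - qq d]

/-- its stationary distribution -/
noncomputable def pp (d : ℝ) : Fin 3 → ℝ := ![d, d, 1 - 2 * d]

/-- the Lyapunov function -/
def gg : Fin 3 → ℝ := ![3, 2, 0]

theorem qq_pos {d : ℝ} (hd : 0 < d) (hd4 : d < 1 / 4) : 0 < qq d :=
  div_pos hd (by linarith)

theorem qq_le {d : ℝ} (hd : 0 < d) (hd4 : d < 1 / 4) : qq d ≤ d := by
  unfold qq
  rw [div_le_iff₀ (by linarith)]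
  nlinarith

theorem isReversibleChain_PP {d : ℝ} (hd : 0 < d) (hd4 : d < 1 / 4) :
    IsReversibleChain (PP d) (pp d) := by
  have hq := qq_pos hd hd4
  have hq1 := qq_le hd hd4
  have hq2 : qq d < 1 / 4 := by linarith
  have hq3 : (1 - 2 * d) * qq d = d / 2 := by
    have h0 : 1 - 2 * d ≠ 0 := by linarith
    unfold qq
    field_simp
  refine ⟨?_, ?_, ?_, ?_, ?_, ?_⟩
  · intro x y
    fin_cases x <;> fin_cases y <;> simp [PP] <;> linarith
  · intro x
    fin_cases x <;> simp [PP, Fin.sum_univ_three] <;> norm_num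
  · intro x y
    refine ⟨2, ?_⟩
    rw [pow_two, Matrix.mul_apply]
    fin_cases x <;> fin_cases y <;> simp [PP, Fin.sum_univ_three] <;> nlinarith
  · intro x
    fin_cases x <;> simp [pp] <;> linarith
  · simp [pp, Fin.sum_univ_three]; ring
  · intro x y
    fin_cases x <;> fin_cases y <;> simp [PP, pp] <;> linarith

theorem PP_mulVec_gg_shift {d : ℝ} (hd : 0 < d) (hd4 : d < 1 / 4) (x : Fin 3) :
    (PP d *ᵥ (fun z => gg z - 12 * qq d)) x ≤ 5 / 6 * (gg x - 12 * qq d) := by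
  have hq := qq_pos hd hd4
  fin_cases x <;> simp [PP, gg, Matrix.mulVec, dotProduct, Fin.sum_univ_three] <;> nlinarith

theorem stayProb_le {d : ℝ} (hd : 0 < d) (hd4 : d < 1 / 4) (A : Finset (Fin 3)) (hA : 2 ∉ A)
    {t : ℝ} (ht : 0 ≤ t) (x : Fin 3) :
    stayProb (PP d) A t x ≤ 3 / 2 * Real.exp (-t / 6) := by
  have hq := qq_pos hd hd4
  have hq1 := qq_le hd hd4
  set N : Matrix (Fin 3) (Fin 3) ℝ := 1 - restrict (1 - PP d) A with hN
  have hNentry : ∀ x y, N x y = if x ∈ A ∧ y ∈ A then PP d x y else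
      (1 : Matrix (Fin 3) (Fin 3) ℝ) x y := by
    intro x y
    rw [hN, Matrix.sub_apply, restrict, Matrix.of_apply]
    split_ifs with h
    · rw [Matrix.sub_apply]; ring
    · ring
  have hNnonneg : ∀ x y, 0 ≤ N x y := by
    intro x y
    rw [hNentry]
    split_ifs with h
    · exact (isReversibleChain_PP hd hd4).nonneg x y
    · rw [Matrix.one_apply]; split_ifs <;> norm_num
  have hrest : restrict (1 - PP d) A = 1 - N := by rw [hN]; abel
  -- the Lyapunov function restricted to `A`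
  set v : Fin 3 → ℝ := fun z => if z ∈ A then gg z else 0 with hv
  have hNv : ∀ x, (N *ᵥ v) x ≤ 5 / 6 * v x := by
    intro x
    have h1 : (N *ᵥ v) x = ∑ y, N x y * v y := by simp [Matrix.mulVec, dotProduct]
    rw [h1]
    by_cases hx : x ∈ A
    · have h2 : ∀ y, N x y * v y ≤ PP d x y * gg y := by
        intro y
        rw [hNentry]
        by_cases hy : y ∈ A
        · simp [hx, hy, hv]
        · simp only [hv, hy, if_false, mul_zero]
          exact mul_nonneg ((isReversibleChain_PP hd hd4).nonneg x y)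
            (by fin_cases y <;> simp [gg])
      calc ∑ y, N x y * v y ≤ ∑ y, PP d x y * gg y := Finset.sum_le_sum fun y _ => h2 y
        _ ≤ 5 / 6 * gg x := by
          have hx2 : x ≠ 2 := fun h => hA (h ▸ hx)
          fin_cases x
          · simp [PP, gg, Fin.sum_univ_three]; norm_num
          · simp [PP, gg, Fin.sum_univ_three]; norm_num
          · exact absurd rfl hx2
        _ = 5 / 6 * v x := by simp [hv, hx]
    · have h2 : ∀ y, N x y * v y = 0 := by
        intro y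
        rw [hNentry]
        by_cases hy : y ∈ A
        · have hxy : x ≠ y := fun h => hx (h ▸ hy)
          simp [hx, Matrix.one_apply_ne hxy]
        · simp [hv, hy]
      rw [Finset.sum_eq_zero (fun y _ => h2 y)]
      simp [hv, hx]
  have hexp := exp_mulVec_le N hNnonneg (5 / 6) (by norm_num) v hNv t ht x
  have hnn := exp_entry_nonneg N hNnonneg t ht
  have h3 : 2 * stayProb (PP d) A t x ≤
      Real.exp (-t) * (NormedSpace.exp (t • N) *ᵥ v) x := by
    rw [stayProb, hrest, exp_neg_smul_one_sub]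
    simp only [Matrix.smul_apply, smul_eq_mul]
    rw [← Finset.mul_sum, ← mul_assoc, mul_comm 2, mul_assoc]
    refine mul_le_mul_of_nonneg_left ?_ (Real.exp_pos _).le
    rw [Finset.mul_sum]
    have h4 : (NormedSpace.exp (t • N) *ᵥ v) x = ∑ y ∈ A, NormedSpace.exp (t • N) x y * gg y := by
      simp only [Matrix.mulVec, dotProduct, hv, mul_ite, mul_zero]
      rw [← Finset.sum_filter]
      simp
    rw [h4]
    refine Finset.sum_le_sum fun y hy => ?_
    have h5 : (2 : ℝ) ≤ gg y := by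
      have hy2 : y ≠ 2 := fun h => hA (h ▸ hy)
      fin_cases y
      · simp [gg]; norm_num
      · simp [gg]
      · exact absurd rfl hy2
    nlinarith [hnn x y]
  have h6 : v x ≤ 3 := by
    simp only [hv]
    split_ifs
    · fin_cases x <;> simp [gg]; norm_num
    · norm_num
  have h7 : Real.exp (-t) * Real.exp (5 / 6 * t) = Real.exp (-t / 6) := by
    rw [← Real.exp_add]; congr 1; ring
  have h8 : Real.exp (-t) * (NormedSpace.exp (t • N) *ᵥ v) x ≤ Real.exp (-t / 6) * 3 := by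
    calc Real.exp (-t) * (NormedSpace.exp (t • N) *ᵥ v) x
        ≤ Real.exp (-t) * (Real.exp (5 / 6 * t) * v x) :=
          mul_le_mul_of_nonneg_left hexp (Real.exp_pos _).le
      _ = Real.exp (-t / 6) * v x := by rw [← mul_assoc, h7]
      _ ≤ Real.exp (-t / 6) * 3 := mul_le_mul_of_nonneg_left h6 (Real.exp_pos _).le
  linarith

theorem heat_nonneg {d : ℝ} (hd : 0 < d) (hd4 : d < 1 / 4) {t : ℝ} (ht : 0 ≤ t) (x y : Fin 3) :
    0 ≤ heat (PP d) t x y := by
  rw [heat, exp_neg_smul_one_sub, Matrix.smul_apply, smul_eq_mul]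
  exact mul_nonneg (Real.exp_pos _).le
    (exp_entry_nonneg _ (isReversibleChain_PP hd hd4).nonneg t ht x y)

theorem heat_sum {d : ℝ} (hd : 0 < d) (hd4 : d < 1 / 4) {t : ℝ} (ht : 0 ≤ t) (x : Fin 3) :
    ∑ y, heat (PP d) t x y = 1 := by
  have h := exp_mulVec_one (PP d) (isReversibleChain_PP hd hd4).nonneg
    (isReversibleChain_PP hd hd4).row_sum t ht x
  simp only [Matrix.mulVec, dotProduct, mul_one] at h
  rw [heat, exp_neg_smul_one_sub]
  simp only [Matrix.smul_apply, smul_eq_mul]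
  rw [← Finset.mul_sum, h, ← Real.exp_add]
  simp

theorem heat_off {d : ℝ} (hd : 0 < d) (hd4 : d < 1 / 4) {t : ℝ} (ht : 0 ≤ t) (x : Fin 3) :
    heat (PP d) t x 0 + heat (PP d) t x 1 ≤ 3 / 2 * Real.exp (-t / 6) + 6 * qq d := by
  have hq := qq_pos hd hd4
  have h := exp_mulVec_le (PP d) (isReversibleChain_PP hd hd4).nonneg (5 / 6) (by norm_num)
    (fun z => gg z - 12 * qq d) (PP_mulVec_gg_shift hd hd4) t ht x
  have hs := heat_sum hd hd4 ht x
  have hn0 := heat_nonneg hd hd4 ht x 0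
  have hn1 := heat_nonneg hd hd4 ht x 1
  have hn2 := heat_nonneg hd hd4 ht x 2
  have h7 : Real.exp (-t) * Real.exp (5 / 6 * t) = Real.exp (-t / 6) := by
    rw [← Real.exp_add]; congr 1; ring
  have h8 : Real.exp (-t) * (NormedSpace.exp (t • PP d) *ᵥ (fun z => gg z - 12 * qq d)) x ≤
      Real.exp (-t / 6) * (gg x - 12 * qq d) := by
    calc _ ≤ Real.exp (-t) * (Real.exp (5 / 6 * t) * (gg x - 12 * qq d)) :=
          mul_le_mul_of_nonneg_left h (Real.exp_pos _).le
      _ = _ := by rw [← mul_assoc, h7]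
  have h9 : Real.exp (-t) * (NormedSpace.exp (t • PP d) *ᵥ (fun z => gg z - 12 * qq d)) x =
      ∑ y, heat (PP d) t x y * (gg y - 12 * qq d) := by
    rw [heat, exp_neg_smul_one_sub]
    simp only [Matrix.smul_apply, smul_eq_mul, Matrix.mulVec, dotProduct, Finset.mul_sum,
      mul_assoc]
  rw [h9] at h8
  rw [Fin.sum_univ_three] at h8 hs
  have hg : gg x ≤ 3 := by fin_cases x <;> simp [gg]; norm_num
  have hexp := Real.exp_pos (-t / 6)
  have h10 : Real.exp (-t / 6) * (gg x - 12 * qq d) ≤ Real.exp (-t / 6) * 3 :=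
    mul_le_mul_of_nonneg_left (by linarith) hexp.le
  simp only [gg, Matrix.cons_val_zero, Matrix.cons_val_one, Matrix.cons_val] at h8
  have h11 : heat (PP d) t x 0 * (3 - 12 * qq d) + heat (PP d) t x 1 * (2 - 12 * qq d) +
      heat (PP d) t x 2 * (0 - 12 * qq d) = 3 * heat (PP d) t x 0 + 2 * heat (PP d) t x 1
        - 12 * qq d * (heat (PP d) t x 0 + heat (PP d) t x 1 + heat (PP d) t x 2) := by ring
  rw [h11, hs] at h8
  simp only [gg] at h10
  linarith

theorem relEnt_le {d : ℝ} (hd : 0 < d) (hd4 : d < 1 / 4) {t : ℝ} (ht : 0 ≤ t) (x : Fin 3) :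
    relEnt (heat (PP d) t x) (pp d) ≤
      (3 / 2 * Real.exp (-t / 6) + 6 * qq d) * Real.log (1 / d) + Real.log (1 / (1 - 2 * d)) := by
  have hs := heat_sum hd hd4 ht x
  have hn0 := heat_nonneg hd hd4 ht x 0
  have hn1 := heat_nonneg hd hd4 ht x 1
  have hn2 := heat_nonneg hd hd4 ht x 2
  have hoff := heat_off hd hd4 ht x
  rw [Fin.sum_univ_three] at hs
  have key : ∀ m p : ℝ, 0 ≤ m → m ≤ 1 → 0 < p → m * Real.log (m / p) ≤ m * Real.log (1 / p) := by
    intro m p hm hm1 hp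
    rcases hm.eq_or_lt with h | h
    · simp [← h]
    · exact mul_le_mul_of_nonneg_left (Real.log_le_log (div_pos h hp)
        (div_le_div_of_nonneg_right hm1 hp.le)) hm
  have k0 := key (heat (PP d) t x 0) d hn0 (by linarith) hd
  have k1 := key (heat (PP d) t x 1) d hn1 (by linarith) hd
  have k2 := key (heat (PP d) t x 2) (1 - 2 * d) hn2 (by linarith) (by linarith)
  have hlog1 : 0 ≤ Real.log (1 / d) := Real.log_nonneg (by
    rw [le_div_iff₀ hd]; linarith)
  have hlog2 : 0 ≤ Real.log (1 / (1 - 2 * d)) := Real.log_nonneg (by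
    rw [le_div_iff₀ (by linarith)]; linarith)
  rw [relEnt, Fin.sum_univ_three]
  have e0 : pp d 0 = d := rfl
  have e1 : pp d 1 = d := rfl
  have e2 : pp d 2 = 1 - 2 * d := rfl
  rw [e0, e1, e2]
  have k3 : heat (PP d) t x 2 * Real.log (1 / (1 - 2 * d)) ≤ 1 * Real.log (1 / (1 - 2 * d)) :=
    mul_le_mul_of_nonneg_right (by linarith) hlog2
  have k4 : (heat (PP d) t x 0 + heat (PP d) t x 1) * Real.log (1 / d) ≤
      (3 / 2 * Real.exp (-t / 6) + 6 * qq d) * Real.log (1 / d) :=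
    mul_le_mul_of_nonneg_right hoff hlog1
  nlinarith

theorem dirichlet_PP {d : ℝ} (hd : 0 < d) (hd4 : d < 1 / 4) (h f : Fin 3 → ℝ) :
    dirichlet (PP d) (pp d) h f =
      d / 2 * ((h 0 - h 1) * (f 0 - f 1) + (h 1 - h 2) * (f 1 - f 2)) := by
  have hq3 : (1 - 2 * d) * qq d = d / 2 := by
    have h0 : 1 - 2 * d ≠ 0 := by linarith
    unfold qq
    field_simp
  have e : dirichlet (PP d) (pp d) h f =
      d * ((1 / 2 * h 0 - 1 / 2 * h 1) * f 0) +
      d * ((h 1 - 1 / 2 * h 0 - 1 / 2 * h 2) * f 1) +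
      ((1 - 2 * d) * qq d) * ((h 2 - h 1) * f 2) := by
    simp [dirichlet, PP, pp, Matrix.mulVec, dotProduct, Fin.sum_univ_three, Matrix.sub_apply,
      Matrix.one_apply]
    ring
  rw [e, hq3]
  ring

theorem sqrt_ineq (a b : ℝ) :
    2 * (Real.exp (a / 2) - Real.exp (b / 2)) ^ 2 ≤ (Real.exp a - Real.exp b) * (a - b) := by
  wlog hab : b ≤ a generalizing a b
  · have := this b a (by linarith)
    nlinarith
  have h1 : Real.exp a = Real.exp (a / 2) ^ 2 := by rw [← Real.exp_nat_mul]; congr 1; push_cast; ring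
  have h2 : Real.exp b = Real.exp (b / 2) ^ 2 := by rw [← Real.exp_nat_mul]; congr 1; push_cast; ring
  have h3 : Real.exp (b / 2) ≤ Real.exp (a / 2) := Real.exp_le_exp.mpr (by linarith)
  have h4 := Real.exp_pos (b / 2)
  -- `1 + (b - a)/2 ≤ e^((b-a)/2)`
  have h5 : Real.exp (b / 2) = Real.exp (a / 2) * Real.exp ((b - a) / 2) := by
    rw [← Real.exp_add]; congr 1; ring
  have h6 := Real.add_one_le_exp ((b - a) / 2)
  have h7 : Real.exp (a / 2) - Real.exp (b / 2) ≤ Real.exp (a / 2) * ((a - b) / 2) := by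
    rw [h5]; nlinarith [Real.exp_pos (a / 2)]
  rw [h1, h2]
  have h8 : 0 ≤ Real.exp (a / 2) - Real.exp (b / 2) := by linarith
  have h9 : (Real.exp (a / 2) ^ 2 - Real.exp (b / 2) ^ 2) * (a - b) =
    2 * ((Real.exp (a / 2) - Real.exp (b / 2)) * ((Real.exp (a / 2) * ((a - b) / 2)))) +
    2 * ((Real.exp (a / 2) - Real.exp (b / 2)) * ((Real.exp (b / 2) * ((a - b) / 2)))) := by ring
  rw [h9]
  have h10 : 0 ≤ 2 * ((Real.exp (a / 2) - Real.exp (b / 2)) * ((Real.exp (b / 2) * ((a - b) / 2)))) := by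
    have : 0 ≤ (a - b) / 2 := by linarith
    positivity
  nlinarith

theorem pp_pos {d : ℝ} (hd : 0 < d) (hd4 : d < 1 / 4) (x : Fin 3) : 0 < pp d x := by
  fin_cases x <;> simp [pp] <;> linarith

theorem ent_eq {d : ℝ} (h : Fin 3 → ℝ) :
    ent (pp d) h = (d * (h 0 * Real.log (h 0)) + d * (h 1 * Real.log (h 1)) +
      (1 - 2 * d) * (h 2 * Real.log (h 2))) -
      (d * h 0 + d * h 1 + (1 - 2 * d) * h 2) * Real.log (d * h 0 + d * h 1 + (1 - 2 * d) * h 2) := by
  simp [ent, pp, Fin.sum_univ_three]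

/-- The entropy of a positive function of mean `m` in the form `∑ π h log (h / m)`. -/
theorem ent_eq' {d : ℝ} (hd : 0 < d) (hd4 : d < 1 / 4) (h : Fin 3 → ℝ) (hh : ∀ x, 0 < h x)
    (m : ℝ) (hm : m = d * h 0 + d * h 1 + (1 - 2 * d) * h 2) :
    ent (pp d) h = d * (h 0 * Real.log (h 0 / m)) + d * (h 1 * Real.log (h 1 / m)) +
      (1 - 2 * d) * (h 2 * Real.log (h 2 / m)) := by
  have hmpos : 0 < m := by
    rw [hm]
    have := hh 0; have := hh 1; have := hh 2
    have h1 : 0 < 1 - 2 * d := by linarith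
    positivity
  rw [ent_eq, ← hm, Real.log_div (hh 0).ne' hmpos.ne', Real.log_div (hh 1).ne' hmpos.ne',
    Real.log_div (hh 2).ne' hmpos.ne']
  rw [hm]
  ring

theorem ent_upper {d : ℝ} (hd : 0 < d) (hd4 : d < 1 / 4) (u : Fin 3 → ℝ) (hu : ∀ x, 0 < u x) :
    ent (pp d) (fun x => u x ^ 2) ≤ 6 * ((u 0 - u 1) ^ 2 + (u 1 - u 2) ^ 2) := by
  obtain ⟨m, hm⟩ : ∃ m, m = d * (u 0) ^ 2 + d * (u 1) ^ 2 + (1 - 2 * d) * (u 2) ^ 2 := ⟨_, rfl⟩
  have h0 := hu 0
  have h1 := hu 1
  have h2 := hu 2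
  have hd2 : 0 < 1 - 2 * d := by linarith
  have hmpos : 0 < m := by rw [hm]; positivity
  rw [ent_eq' hd hd4 _ (fun x => by have := hu x; positivity) m hm]
  have key : ∀ z : ℝ, 0 < z → z * Real.log (z / m) ≤ z * (z / m - 1) := fun z hz =>
    mul_le_mul_of_nonneg_left (Real.log_le_sub_one_of_pos (div_pos hz hmpos)) hz.le
  have k0 := mul_le_mul_of_nonneg_left (key (u 0 ^ 2) (by positivity)) hd.le
  have k1 := mul_le_mul_of_nonneg_left (key (u 1 ^ 2) (by positivity)) hd.le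
  have k2 := mul_le_mul_of_nonneg_left (key (u 2 ^ 2) (by positivity)) hd2.le
  refine (add_le_add (add_le_add k0 k1) k2).trans ?_
  have e : d * (u 0 ^ 2 * (u 0 ^ 2 / m - 1)) + d * (u 1 ^ 2 * (u 1 ^ 2 / m - 1)) +
      (1 - 2 * d) * (u 2 ^ 2 * (u 2 ^ 2 / m - 1)) =
      (d * (u 0 ^ 2) ^ 2 + d * (u 1 ^ 2) ^ 2 + (1 - 2 * d) * (u 2 ^ 2) ^ 2 - m * m) / m := by
    have : m / m = 1 := div_self hmpos.ne'
    field_simp
    rw [hm]
    ring
  rw [e, div_le_iff₀ hmpos]
  -- the variance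
  have e2 : d * (u 0 ^ 2) ^ 2 + d * (u 1 ^ 2) ^ 2 + (1 - 2 * d) * (u 2 ^ 2) ^ 2 - m * m =
      d * d * (u 0 ^ 2 - u 1 ^ 2) ^ 2 + d * (1 - 2 * d) * (u 0 ^ 2 - u 2 ^ 2) ^ 2 +
      d * (1 - 2 * d) * (u 1 ^ 2 - u 2 ^ 2) ^ 2 := by
    rw [hm]; ring
  rw [e2]
  have sq : ∀ a b : ℝ, (a ^ 2 - b ^ 2) ^ 2 ≤ 2 * (a - b) ^ 2 * (a ^ 2 + b ^ 2) := by
    intro a b
    have : 2 * (a - b) ^ 2 * (a ^ 2 + b ^ 2) - (a ^ 2 - b ^ 2) ^ 2 = ((a - b) ^ 2) ^ 2 := by ring
    nlinarith [sq_nonneg ((a - b) ^ 2)]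
  have b1 : d * d * (u 0 ^ 2 - u 1 ^ 2) ^ 2 ≤ 2 * (u 0 - u 1) ^ 2 * m := by
    calc d * d * (u 0 ^ 2 - u 1 ^ 2) ^ 2 ≤ d * d * (2 * (u 0 - u 1) ^ 2 * (u 0 ^ 2 + u 1 ^ 2)) :=
          mul_le_mul_of_nonneg_left (sq _ _) (by positivity)
      _ = 2 * (u 0 - u 1) ^ 2 * (d * (d * u 0 ^ 2 + d * u 1 ^ 2)) := by ring
      _ ≤ 2 * (u 0 - u 1) ^ 2 * m := by
          refine mul_le_mul_of_nonneg_left ?_ (by positivity)
          have : 0 < d * u 0 ^ 2 + d * u 1 ^ 2 := by positivity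
          have : 0 < (1 - 2 * d) * u 2 ^ 2 := by positivity
          rw [hm]; nlinarith
  have b2 : d * (1 - 2 * d) * (u 0 ^ 2 - u 2 ^ 2) ^ 2 ≤ 2 * (u 0 - u 2) ^ 2 * m := by
    calc d * (1 - 2 * d) * (u 0 ^ 2 - u 2 ^ 2) ^ 2
        ≤ d * (1 - 2 * d) * (2 * (u 0 - u 2) ^ 2 * (u 0 ^ 2 + u 2 ^ 2)) :=
          mul_le_mul_of_nonneg_left (sq _ _) (by positivity)
      _ = 2 * (u 0 - u 2) ^ 2 * ((1 - 2 * d) * (d * u 0 ^ 2) + d * ((1 - 2 * d) * u 2 ^ 2)) := by ring
      _ ≤ 2 * (u 0 - u 2) ^ 2 * m := by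
          refine mul_le_mul_of_nonneg_left ?_ (by positivity)
          have t0 : 0 < d * u 0 ^ 2 := by positivity
          have t1 : 0 < d * u 1 ^ 2 := by positivity
          have t2 : 0 < (1 - 2 * d) * u 2 ^ 2 := by positivity
          rw [hm]; nlinarith
  have b3 : d * (1 - 2 * d) * (u 1 ^ 2 - u 2 ^ 2) ^ 2 ≤ 2 * (u 1 - u 2) ^ 2 * m := by
    calc d * (1 - 2 * d) * (u 1 ^ 2 - u 2 ^ 2) ^ 2
        ≤ d * (1 - 2 * d) * (2 * (u 1 - u 2) ^ 2 * (u 1 ^ 2 + u 2 ^ 2)) :=
          mul_le_mul_of_nonneg_left (sq _ _) (by positivity)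
      _ = 2 * (u 1 - u 2) ^ 2 * ((1 - 2 * d) * (d * u 1 ^ 2) + d * ((1 - 2 * d) * u 2 ^ 2)) := by ring
      _ ≤ 2 * (u 1 - u 2) ^ 2 * m := by
          refine mul_le_mul_of_nonneg_left ?_ (by positivity)
          have t0 : 0 < d * u 0 ^ 2 := by positivity
          have t1 : 0 < d * u 1 ^ 2 := by positivity
          have t2 : 0 < (1 - 2 * d) * u 2 ^ 2 := by positivity
          rw [hm]; nlinarith
  have b4 : (u 0 - u 2) ^ 2 ≤ 2 * (u 0 - u 1) ^ 2 + 2 * (u 1 - u 2) ^ 2 := by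
    have := sq_nonneg ((u 0 - u 1) - (u 1 - u 2))
    linarith
  have b5 := mul_le_mul_of_nonneg_right b4 hmpos.le
  linarith

theorem ent_pos {d : ℝ} (hd : 0 < d) (hd4 : d < 1 / 4) (h : Fin 3 → ℝ) (hh : ∀ x, 0 < h x)
    (hne : ∃ x y, h x ≠ h y) : 0 < ent (pp d) h := by
  obtain ⟨m, hm⟩ : ∃ m, m = d * h 0 + d * h 1 + (1 - 2 * d) * h 2 := ⟨_, rfl⟩
  have h0 := hh 0
  have h1 := hh 1
  have h2 := hh 2
  have hd2 : 0 < 1 - 2 * d := by linarith
  have hmpos : 0 < m := by rw [hm]; positivity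
  rw [ent_eq' hd hd4 h hh m hm]
  have key : ∀ z : ℝ, 0 < z → z - m ≤ z * Real.log (z / m) := by
    intro z hz
    have := Real.one_sub_inv_le_log_of_pos (div_pos hz hmpos)
    rw [inv_div] at this
    have h3 := mul_le_mul_of_nonneg_left this hz.le
    have h4 : z * (1 - m / z) = z - m := by field_simp
    linarith
  have key' : ∀ z : ℝ, 0 < z → z ≠ m → z - m < z * Real.log (z / m) := by
    intro z hz hzm
    have h3 : Real.log (m / z) < m / z - 1 :=
      Real.log_lt_sub_one_of_pos (div_pos hmpos hz) (by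
        intro h; rw [div_eq_one_iff_eq hz.ne'] at h; exact hzm h.symm)
    have h4 : Real.log (z / m) = - Real.log (m / z) := by
      rw [← Real.log_inv, inv_div]
    have h5 : z * (m / z - 1) = m - z := by field_simp
    have h6 := mul_lt_mul_of_pos_left h3 hz
    rw [h4]
    linarith
  have hx : ∃ x, h x ≠ m := by
    by_contra hcon
    push Not at hcon
    obtain ⟨x, y, hxy⟩ := hne
    exact hxy (by rw [hcon x, hcon y])
  have k0 := mul_le_mul_of_nonneg_left (key (h 0) h0) hd.le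
  have k1 := mul_le_mul_of_nonneg_left (key (h 1) h1) hd.le
  have k2 := mul_le_mul_of_nonneg_left (key (h 2) h2) hd2.le
  have hsum : d * (h 0 - m) + d * (h 1 - m) + (1 - 2 * d) * (h 2 - m) = 0 := by
    rw [hm]; ring
  obtain ⟨x, hx⟩ := hx
  fin_cases x
  · have := mul_lt_mul_of_pos_left (key' (h 0) h0 hx) hd
    linarith
  · have := mul_lt_mul_of_pos_left (key' (h 1) h1 hx) hd
    linarith
  · have := mul_lt_mul_of_pos_left (key' (h 2) h2 hx) hd2
    linarith

theorem ratio_lower {d : ℝ} (hd : 0 < d) (hd4 : d < 1 / 4) (f : Fin 3 → ℝ)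
    (hf : ∃ x y, f x ≠ f y) :
    d / 6 ≤ dirichlet (PP d) (pp d) (fun x => Real.exp (f x)) f /
      ent (pp d) (fun x => Real.exp (f x)) := by
  have hpos : 0 < ent (pp d) (fun x => Real.exp (f x)) := by
    refine ent_pos hd hd4 _ (fun x => Real.exp_pos _) ?_
    obtain ⟨x, y, hxy⟩ := hf
    exact ⟨x, y, fun h => hxy (Real.exp_injective h)⟩
  rw [le_div_iff₀ hpos, dirichlet_PP hd hd4]
  have e : (fun x => Real.exp (f x)) = fun x => (Real.exp (f x / 2)) ^ 2 := by
    funext x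
    rw [← Real.exp_nat_mul]; congr 1; push_cast; ring
  have hup := ent_upper hd hd4 (fun x => Real.exp (f x / 2)) (fun x => Real.exp_pos _)
  rw [← e] at hup
  have s0 := sqrt_ineq (f 0) (f 1)
  have s1 := sqrt_ineq (f 1) (f 2)
  nlinarith

theorem cMLS_set_nonempty (P : Matrix (Fin 3) (Fin 3) ℝ) (π : Fin 3 → ℝ) :
    {r : ℝ | ∃ f : Fin 3 → ℝ, (∃ x y, f x ≠ f y) ∧
    r = dirichlet P π (fun x => Real.exp (f x)) f / ent π (fun x => Real.exp (f x))}.Nonempty :=
  ⟨_, ![0, 1, 0], ⟨0, 1, by simp⟩, rfl⟩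

theorem cMLS_pos {d : ℝ} (hd : 0 < d) (hd4 : d < 1 / 4) : 0 < cMLS (PP d) (pp d) := by
  have h : d / 6 ≤ cMLS (PP d) (pp d) := by
    refine le_csInf (cMLS_set_nonempty _ _) ?_
    rintro r ⟨f, hf, rfl⟩
    exact ratio_lower hd hd4 f hf
  linarith

/-- Upper bound on the modified log-Sobolev constant for `d = e^(-L)`. -/
theorem cMLS_le {L : ℝ} (hL : 8 ≤ L) :
    cMLS (PP (Real.exp (-L))) (pp (Real.exp (-L))) ≤ (Real.log L + 1) / L := by
  have hLpos : 0 < L := by linarith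
  have hd : 0 < Real.exp (-L) := Real.exp_pos _
  have hd4 : Real.exp (-L) < 1 / 4 := by
    have h1 : Real.exp (-L) ≤ Real.exp (-2) := Real.exp_le_exp.mpr (by linarith)
    have h2 : Real.exp (-2) < 1 / 4 := by
      have h3 : (2 : ℝ) < Real.exp 1 := by have := Real.exp_one_gt_d9; linarith
      have h4 : Real.exp (-2) = (Real.exp 1 ^ 2)⁻¹ := by
        rw [Real.exp_neg, ← Real.exp_nat_mul]; norm_num
      rw [h4, inv_eq_one_div]
      apply one_div_lt_one_div_of_lt (by norm_num)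
      nlinarith
    linarith
  set d := Real.exp (-L) with hdL
  have hdexp : d * Real.exp L = 1 := by rw [hdL, ← Real.exp_add]; simp
  have hlogL : 0 ≤ Real.log L := Real.log_nonneg (by linarith)
  have hlogL2 : Real.log L ≤ L := by have := Real.log_le_sub_one_of_pos hLpos; linarith
  -- the test function
  obtain ⟨f, hf⟩ : ∃ f : Fin 3 → ℝ, f = ![L, L - Real.log L, 0] := ⟨_, rfl⟩
  have f0 : f 0 = L := by rw [hf]; rfl
  have f1 : f 1 = L - Real.log L := by rw [hf]; rfl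
  have f2 : f 2 = 0 := by rw [hf]; rfl
  have hbdd : BddBelow {r : ℝ | ∃ f : Fin 3 → ℝ, (∃ x y, f x ≠ f y) ∧
      r = dirichlet (PP d) (pp d) (fun x => Real.exp (f x)) f /
        ent (pp d) (fun x => Real.exp (f x))} := by
    refine ⟨0, ?_⟩
    rintro r ⟨f, hf, rfl⟩
    have := ratio_lower hd hd4 f hf
    linarith
  have hle : cMLS (PP d) (pp d) ≤ dirichlet (PP d) (pp d) (fun x => Real.exp (f x)) f /
        ent (pp d) (fun x => Real.exp (f x)) :=
    csInf_le hbdd ⟨f, ⟨0, 2, by rw [f0, f2]; linarith⟩, rfl⟩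
  refine hle.trans ?_
  -- the Dirichlet form
  have hexp1 : Real.exp (L - Real.log L) = Real.exp L / L := by
    rw [Real.exp_sub, Real.exp_log hLpos]
  have hdir : dirichlet (PP d) (pp d) (fun x => Real.exp (f x)) f ≤ (Real.log L + 1) / 2 := by
    rw [dirichlet_PP hd hd4]
    simp only [f0, f1, f2, Real.exp_zero, hexp1]
    have e : d / 2 * ((Real.exp L - Real.exp L / L) * (L - (L - Real.log L)) +
        (Real.exp L / L - 1) * (L - Real.log L - 0)) =
        (d * Real.exp L) / 2 * ((1 - 1 / L) * Real.log L + 1 / L * (L - Real.log L)) -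
          d / 2 * (L - Real.log L) := by ring
    rw [e, hdexp]
    have h1 : 0 ≤ d / 2 * (L - Real.log L) := mul_nonneg (by linarith) (by linarith)
    have h2 : 1 / L * (L - Real.log L) ≤ 1 := by
      rw [one_div, inv_mul_le_iff₀ hLpos]; linarith
    have h3 : (1 - 1 / L) * Real.log L ≤ 1 * Real.log L :=
      mul_le_mul_of_nonneg_right (by have : 0 < 1 / L := by positivity
                                     linarith) hlogL
    linarith
  -- the entropy
  have hent : L / 2 ≤ ent (pp d) (fun x => Real.exp (f x)) := by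
    rw [ent_eq]
    simp only [f0, f1, f2, Real.log_exp, Real.exp_zero, hexp1, Real.log_one, mul_one, mul_zero,
      add_zero]
    have e1 : d * (Real.exp L * L) = L := by rw [← mul_assoc, hdexp, one_mul]
    have e2 : d * (Real.exp L / L * Real.log (Real.exp L / L)) =
        1 / L * (L - Real.log L) := by
      rw [← hexp1, Real.log_exp, hexp1]
      calc d * (Real.exp L / L * (L - Real.log L)) = (d * Real.exp L) * (1 / L * (L - Real.log L)) := by
            ring
        _ = _ := by rw [hdexp, one_mul]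
    have e3 : d * (Real.exp L / L) = 1 / L := by
      calc d * (Real.exp L / L) = (d * Real.exp L) * (1 / L) := by ring
        _ = _ := by rw [hdexp, one_mul]
    rw [e1, e2, hdexp, e3]
    have h4 : 0 ≤ 1 / L * (L - Real.log L) := mul_nonneg (by positivity) (by linarith)
    have h5 : 0 < 1 / L := by positivity
    have h6 : 1 / L ≤ 1 / 8 := one_div_le_one_div_of_le (by norm_num) hL
    obtain ⟨m, hm⟩ : ∃ m, m = 1 + 1 / L + (1 - 2 * d) := ⟨_, rfl⟩
    rw [← hm]
    have hm1 : 0 < m := by rw [hm]; linarith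
    have hm2 : m ≤ 9 / 4 := by rw [hm]; linarith
    -- `m log m ≤ 9/4 * log (9/4) ≤ 9/4 * log 4 ≤ 4`
    have h7 : Real.log m ≤ Real.log (9 / 4) := Real.log_le_log hm1 hm2
    have h8 : Real.log (9 / 4) ≤ 9 / 4 - 1 := Real.log_le_sub_one_of_pos (by norm_num)
    have h9 : m * Real.log m ≤ 9 / 4 * (5 / 4) := by
      rcases le_or_gt (Real.log m) 0 with h | h
      · have : m * Real.log m ≤ 0 := mul_nonpos_of_nonneg_of_nonpos hm1.le h
        linarith
      · exact mul_le_mul hm2 (by linarith) h.le (by norm_num)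
    linarith
  have hentpos : 0 < ent (pp d) (fun x => Real.exp (f x)) := by linarith
  rw [div_le_div_iff₀ hentpos hLpos]
  have h10 : (Real.log L + 1) * (L / 2) ≤ (Real.log L + 1) * ent (pp d) (fun x => Real.exp (f x)) :=
    mul_le_mul_of_nonneg_left hent (by linarith)
  have h11 : dirichlet (PP d) (pp d) (fun x => Real.exp (f x)) f * L ≤ (Real.log L + 1) / 2 * L :=
    mul_le_mul_of_nonneg_right hdir hLpos.le
  linarith

theorem eventually_small (C K : ℝ) (hK : 0 < K) :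
    ∀ᶠ L : ℝ in atTop, C * (6 * Real.log (K * L)) * (Real.log L + 1) < L := by
  have h1 : (fun L : ℝ => Real.log L) =o[atTop] (id : ℝ → ℝ) := Real.isLittleO_log_id_atTop
  have h2 : (fun L : ℝ => Real.log L ^ 2) =o[atTop] (id : ℝ → ℝ) := Real.isLittleO_pow_log_id_atTop
  have h3 : (fun _ : ℝ => (1 : ℝ)) =o[atTop] (id : ℝ → ℝ) :=
    Asymptotics.isLittleO_const_id_atTop 1
  have h4 : (fun L : ℝ => 6 * C * Real.log L ^ 2 + 6 * C * (Real.log K + 1) * Real.log L +
      6 * C * Real.log K * 1) =o[atTop] (id : ℝ → ℝ) :=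
    ((h2.const_mul_left _).add (h1.const_mul_left _)).add (h3.const_mul_left _)
  have h5 := h4.bound (show (0 : ℝ) < 1 / 2 by norm_num)
  filter_upwards [h5, eventually_gt_atTop (0 : ℝ)] with L hL hL0
  rw [id, Real.norm_eq_abs, Real.norm_eq_abs, abs_of_pos hL0] at hL
  have h6 := (le_abs_self _).trans hL
  rw [Real.log_mul hK.ne' hL0.ne']
  have e : C * (6 * (Real.log K + Real.log L)) * (Real.log L + 1) =
    6 * C * Real.log L ^ 2 + 6 * C * (Real.log K + 1) * Real.log L + 6 * C * Real.log K * 1 := by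
    ring
  rw [e]
  linarith

/-- **Negative answer to Q1.**  For every `C_ent > 0` and every `C` there is an irreducible
reversible chain, on three states, with `1 / c_MLS > C ρ_ent` and `1 / c_MLS > C τ_ent`. -/
theorem result (Cent : ℝ) (hCent : 0 < Cent) (C : ℝ) :
    ∃ (P : Matrix (Fin 3) (Fin 3) ℝ) (π : Fin 3 → ℝ),
      IsReversibleChain P π ∧ 0 < cMLS P π ∧
      (∀ x, (rhoSet P π Cent x).Nonempty) ∧ (∀ x, (tauSet P π x).Nonempty) ∧
      C * rhoEnt P π Cent < 1 / cMLS P π ∧ C * tauEnt P π < 1 / cMLS P π := by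
  obtain ⟨K, hK⟩ : ∃ K, K = max 12 (2 / Cent) := ⟨_, rfl⟩
  have hK12 : 12 ≤ K := hK ▸ le_max_left _ _
  have hKC : 2 / Cent ≤ K := hK ▸ le_max_right _ _
  have hKpos : 0 < K := by linarith
  obtain ⟨L, hL, hL200⟩ :=
    ((eventually_small |C| K hKpos).and (eventually_ge_atTop (200 : ℝ))).exists
  have hLpos : 0 < L := by linarith
  have hlogL : 0 ≤ Real.log L := Real.log_nonneg (by linarith)
  obtain ⟨d, hdL⟩ : ∃ d, d = Real.exp (-L) := ⟨_, rfl⟩
  have hd : 0 < d := hdL ▸ Real.exp_pos _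
  have hdexp : d * Real.exp L = 1 := by rw [hdL, ← Real.exp_add]; simp
  -- `d L ≤ 2 / L ≤ 1 / 100`
  have hquad := Real.quadratic_le_exp_of_nonneg hLpos.le
  have hdLL : d * L * 100 ≤ 1 := by
    rw [← hdexp]
    have : L * 100 ≤ Real.exp L := by nlinarith
    nlinarith
  have hd100 : d ≤ 1 / 20000 := by nlinarith
  have hd4 : d < 1 / 4 := by linarith
  have hq := qq_pos hd hd4
  have hq1 := qq_le hd hd4
  have hlogd : Real.log (1 / d) = L := by
    rw [one_div, Real.log_inv, hdL, Real.log_exp]; ring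
  -- the time
  obtain ⟨t, htdef⟩ : ∃ t, t = 6 * Real.log (K * L) := ⟨_, rfl⟩
  have hKL : 1 ≤ K * L := by nlinarith
  have ht : 0 ≤ t := by
    rw [htdef]; exact mul_nonneg (by norm_num) (Real.log_nonneg hKL)
  have hexpt : Real.exp (-t / 6) = 1 / (K * L) := by
    have : -t / 6 = -Real.log (K * L) := by rw [htdef]; ring
    rw [this, Real.exp_neg, Real.exp_log (by linarith), one_div]
  -- membership in the two sets of times
  have hrho : ∀ x, t ∈ rhoSet (PP d) (pp d) Cent x := by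
    intro x
    refine ⟨ht, fun A _ hA => ?_⟩
    have h2A : (2 : Fin 3) ∉ A := by
      intro h2
      have h3 : pp d 2 ≤ ∑ y ∈ A, pp d y :=
        Finset.single_le_sum (fun y _ => (pp_pos hd hd4 y).le) h2
      have h4 : pp d 2 = 1 - 2 * d := rfl
      rw [h4] at h3
      linarith
    have hstay := stayProb_le hd hd4 A h2A ht x
    rw [hexpt] at hstay
    rcases A.eq_empty_or_nonempty with hAe | ⟨a, ha⟩
    · subst hAe
      simp [stayProb]
      norm_num
    · have hA1 : d ≤ ∑ y ∈ A, pp d y := by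
        have h3 : pp d a ≤ ∑ y ∈ A, pp d y :=
          Finset.single_le_sum (fun y _ => (pp_pos hd hd4 y).le) ha
        have h4 : d ≤ pp d a := by
          fin_cases a <;> simp [pp]; linarith
        linarith
      have hApos : 0 < ∑ y ∈ A, pp d y := by linarith
      have hlogA : |Real.log (∑ y ∈ A, pp d y)| ≤ L := by
        rw [abs_of_nonpos (Real.log_nonpos hApos.le (by linarith))]
        have h5 := Real.log_le_log hd hA1
        rw [hdL, Real.log_exp] at h5
        rw [hdL]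
        linarith
      have hlogA0 : 0 < |Real.log (∑ y ∈ A, pp d y)| := by
        rw [abs_pos]
        exact (Real.log_neg hApos (by linarith)).ne
      refine hstay.trans (le_min ?_ ?_)
      · calc 3 / 2 * (1 / (K * L)) ≤ Cent / L := by
              rw [div_mul_div_comm, div_le_div_iff₀ (by positivity) hLpos]
              have h6 : 2 ≤ K * Cent := by
                rwa [div_le_iff₀ hCent] at hKC
              nlinarith
          _ ≤ _ := div_le_div_of_nonneg_left hCent.le hlogA0 hlogA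
      · rw [div_mul_div_comm, div_le_div_iff₀ (by positivity) (by norm_num)]
        nlinarith
  have htau : ∀ x, t ∈ tauSet (PP d) (pp d) x := by
    intro x
    refine ⟨ht, (relEnt_le hd hd4 ht x).trans ?_⟩
    rw [hexpt, hlogd]
    have h1 : Real.log (1 / (1 - 2 * d)) ≤ 4 * d := by
      have h2 : 0 < 1 - 2 * d := by linarith
      have h3 := Real.log_le_sub_one_of_pos (show 0 < 1 / (1 - 2 * d) by positivity)
      have h4 : 1 / (1 - 2 * d) ≤ 1 + 4 * d := by
        rw [div_le_iff₀ h2]; nlinarith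
      linarith
    have h2 : (3 / 2 * (1 / (K * L)) + 6 * qq d) * L = 3 / 2 / K + 6 * (qq d * L) := by
      field_simp
    have h3 : 3 / 2 / K ≤ 1 / 8 := by
      rw [div_le_iff₀ hKpos]; linarith
    have h4 : qq d * L ≤ d * L := mul_le_mul_of_nonneg_right hq1 hLpos.le
    rw [h2]
    linarith
  have hrle : rhoEnt (PP d) (pp d) Cent ≤ t :=
    ciSup_le fun x => csInf_le ⟨0, fun s hs => hs.1⟩ (hrho x)
  have htle : tauEnt (PP d) (pp d) ≤ t :=
    ciSup_le fun x => csInf_le ⟨0, fun s hs => hs.1⟩ (htau x)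
  have hr0 : 0 ≤ rhoEnt (PP d) (pp d) Cent :=
    Real.iSup_nonneg fun x => Real.sInf_nonneg fun s hs => hs.1
  have ht0 : 0 ≤ tauEnt (PP d) (pp d) :=
    Real.iSup_nonneg fun x => Real.sInf_nonneg fun s hs => hs.1
  have hc := cMLS_pos hd hd4
  have hcle : cMLS (PP d) (pp d) ≤ (Real.log L + 1) / L := by
    rw [hdL]; exact cMLS_le (by linarith)
  have hmain : |C| * t < 1 / cMLS (PP d) (pp d) := by
    have h1 : L / (Real.log L + 1) ≤ 1 / cMLS (PP d) (pp d) := by
      rw [le_div_iff₀ hc]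
      calc L / (Real.log L + 1) * cMLS (PP d) (pp d)
          ≤ L / (Real.log L + 1) * ((Real.log L + 1) / L) :=
            mul_le_mul_of_nonneg_left hcle (by positivity)
        _ = 1 := by
            have : Real.log L + 1 ≠ 0 := by linarith
            field_simp
    have h2 : |C| * t < L / (Real.log L + 1) := by
      rw [lt_div_iff₀ (by linarith), htdef]
      exact hL
    linarith
  refine ⟨PP d, pp d, isReversibleChain_PP hd hd4, hc, fun x => ⟨t, hrho x⟩,
    fun x => ⟨t, htau x⟩, ?_, ?_⟩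
  · calc C * rhoEnt (PP d) (pp d) Cent ≤ |C| * rhoEnt (PP d) (pp d) Cent :=
          mul_le_mul_of_nonneg_right (le_abs_self C) hr0
      _ ≤ |C| * t := mul_le_mul_of_nonneg_left hrle (abs_nonneg C)
      _ < _ := hmain
  · calc C * tauEnt (PP d) (pp d) ≤ |C| * tauEnt (PP d) (pp d) :=
          mul_le_mul_of_nonneg_right (le_abs_self C) ht0
      _ ≤ |C| * t := mul_le_mul_of_nonneg_left htle (abs_nonneg C)
      _ < _ := hmain

end Example

end Pool.Agent.Results.MP_bada7b_pr.Disproof
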